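import Pool.Agent.R406.PalCount

/-! # Eventually palindromic complete return words force `T(n) = 0` for all large `n` -/

namespace Pool.Agent.Results.MP_0fbb7a_co.PalindromicReturns

open Pool.Agent.R406.Pal

/-- Let `u` be an infinite word over a finite alphabet whose language is closed under reversal and
contains infinitely many palindromes. If every complete return word of every palindromic factor of
length at least `K` is a palindrome, then `T(n) = 0` for all sufficiently large `n`. -/
theorem result {α : Type*} [Finite α] (u : ℕ → α)
    (hrev : ClosedRev u)
    (hinf : {w | w ∈ lang u ∧ w.reverse = w}.Infinite)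
    (K : ℕ)
    (hK : ∀ w ∈ lang u, w.reverse = w → K ≤ w.length →
      ∀ v ∈ lang u, IsCompleteReturn w v → v.reverse = v) :
    ∃ N : ℕ, ∀ n, N ≤ n → T u n = 0 :=
  T_eventually_zero hrev hinf K hK

end Pool.Agent.Results.MP_0fbb7a_co.PalindromicReturns
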